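import Pool.Agent.helper93.TV.Spec2

/-!
# Project TV, row SU (the reconstructed F-symbols are unitary)
-/

set_option autoImplicit false

namespace Pool.Agent.helper93.TV

open BigOperators Finset Matrix

/-- Two orthonormal families with the same projection: the matrix of scalar products is
unitary. -/
theorem SU_abs {τ ι κ : Type} [DecidableEq ι] (W : Finset τ) (A : Finset ι) (B : Finset κ)
    (L : ι → τ → ℂ) (R : κ → τ → ℂ)
    (hK : ∀ w ∈ W, ∀ w' ∈ W, ∑ j ∈ B, star (R j w) * R j w' = ∑ i ∈ A, star (L i w) * L i w')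
    (hL : ∀ i ∈ A, ∀ i' ∈ A, ∑ w ∈ W, L i w * star (L i' w) = if i = i' then 1 else 0)
    (i : ι) (hi : i ∈ A) (i₁ : ι) (hi₁ : i₁ ∈ A) :
    ∑ j ∈ B, (∑ w ∈ W, L i w * star (R j w)) * star (∑ w ∈ W, L i₁ w * star (R j w)) =
      if i = i₁ then 1 else 0 := by
  calc ∑ j ∈ B, (∑ w ∈ W, L i w * star (R j w)) * star (∑ w ∈ W, L i₁ w * star (R j w))
      = ∑ j ∈ B, ∑ w ∈ W, ∑ w' ∈ W,
          (L i w * star (L i₁ w')) * (star (R j w) * R j w') := by
        refine Finset.sum_congr rfl fun j _ => ?_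
        rw [star_sum, Finset.sum_mul_sum]
        refine Finset.sum_congr rfl fun w _ => Finset.sum_congr rfl fun w' _ => ?_
        rw [star_mul, star_star]
        ring
    _ = ∑ w ∈ W, ∑ w' ∈ W, ∑ j ∈ B,
          (L i w * star (L i₁ w')) * (star (R j w) * R j w') := by
        rw [Finset.sum_comm]
        exact Finset.sum_congr rfl fun w _ => Finset.sum_comm
    _ = ∑ w ∈ W, ∑ w' ∈ W, ∑ k ∈ A,
          (L i w * star (L i₁ w')) * (star (L k w) * L k w') := by
        refine Finset.sum_congr rfl fun w hw => Finset.sum_congr rfl fun w' hw' => ?_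
        rw [← Finset.mul_sum, ← Finset.mul_sum, hK w hw w' hw']
    _ = ∑ k ∈ A, ∑ w ∈ W, ∑ w' ∈ W,
          (L i w * star (L i₁ w')) * (star (L k w) * L k w') := by
        rw [Finset.sum_comm]
        rw [Finset.sum_congr rfl fun w _ => Finset.sum_comm]
        rw [Finset.sum_comm]
        exact Finset.sum_congr rfl fun k _ => Finset.sum_comm
    _ = ∑ k ∈ A, (∑ w ∈ W, L i w * star (L k w)) * (∑ w ∈ W, L k w * star (L i₁ w)) := by
        refine Finset.sum_congr rfl fun k _ => ?_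
        rw [Finset.sum_mul_sum]
        refine Finset.sum_congr rfl fun w _ => Finset.sum_congr rfl fun w' _ => ?_
        ring
    _ = ∑ k ∈ A, (if i = k then 1 else 0) * (if k = i₁ then (1 : ℂ) else 0) := by
        refine Finset.sum_congr rfl fun k hk => ?_
        rw [hL i hi k hk, hL k hk i₁ hi₁]
    _ = if i = i₁ then 1 else 0 := by
        rw [Finset.sum_eq_single i]
        · rw [if_pos rfl, one_mul]
        · intro k _ hki
          rw [if_neg (Ne.symm hki), zero_mul]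
        · intro h
          exact absurd hi h

theorem SU_nest {V : Type} [Fintype V] [DecidableEq V] (P : V → Prop) (Q : V → V → Prop)
    [DecidablePred P] [∀ x, DecidablePred (Q x)] (f : V → V → ℂ) :
    ∑ x ∈ univ.filter P, ∑ y ∈ univ.filter (Q x), f x y =
      ∑ z ∈ (univ : Finset (V × V)).filter (fun z => P z.1 ∧ Q z.1 z.2), f z.1 z.2 := by
  rw [Finset.sum_filter, Finset.sum_filter, Fintype.sum_prod_type]
  refine Finset.sum_congr rfl fun x _ => ?_
  by_cases hP : P x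
  · rw [if_pos hP, Finset.sum_filter]
    refine Finset.sum_congr rfl fun y _ => ?_
    by_cases hQ : Q x y
    · rw [if_pos hQ, if_pos ⟨hP, hQ⟩]
    · rw [if_neg hQ, if_neg (fun h => hQ h.2)]
  · rw [if_neg hP]
    symm
    refine Finset.sum_eq_zero fun y _ => ?_
    rw [if_neg (fun h => hP h.1)]

/-- Row SU. -/
theorem SU : SU_stmt := by
  intro hSR hSL hSC I V _ _ _ _ D X c m bp J hctx hcalc hJ
  obtain ⟨_, hR⟩ := hSR I V D X c m bp J hctx hcalc hJ
  obtain ⟨hLo, hLs, hRs⟩ := hSL I V D X c m bp J hctx hcalc hJ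
  have hC := hSC I V D X c m bp J hctx hcalc hJ
  -- values of the form
  have hG : ∀ α γ β δ, D.t α = D.s1 γ → D.t β = D.s2 δ → D.s1 α = D.s1 δ → D.s2 α = D.s1 β →
      D.s2 γ = D.s2 β → D.form X c m bp J α γ β δ =
        ∑ w ∈ lists V (2 * m), Lv m J α γ w * star (D.Rv X c m bp J β δ w) := by
    intro α γ β δ h1 h2 h3 h4 h5
    by_cases h6 : D.t γ = D.t δ
    · rw [FD.form, if_pos ⟨h1, h2, h3, h4, h5, h6⟩]
    · rw [FD.form, if_neg (fun h => h6 h.2.2.2.2.2)]
      symm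
      refine Finset.sum_eq_zero fun w hw => ?_
      by_contra hne
      have hl : Lv m J α γ w ≠ 0 := left_ne_zero_of_mul hne
      have hr : D.Rv X c m bp J β δ w ≠ 0 := fun h => by
        rw [h, star_zero, mul_zero] at hne
        exact hne rfl
      obtain ⟨_, e1⟩ := hLs α γ w hw h1 hl
      obtain ⟨_, _, e2⟩ := hRs β δ w hr
      rw [h3] at e1
      exact h6 (e1.symm.trans e2)
  have hG0 : ∀ α γ β δ, ¬ D.cp α γ β δ → D.form X c m bp J α γ β δ = 0 := by
    intro α γ β δ h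
    rw [FD.form, if_neg h]
  -- index sets
  set A : I → I → I → Finset (V × V) := fun a b d =>
    univ.filter fun z => (D.s1 z.1 = a ∧ D.s2 z.1 = b) ∧ (D.s1 z.2 = D.t z.1 ∧ D.s2 z.2 = d)
    with hA
  set B : I → I → I → Finset (V × V) := fun a b d =>
    univ.filter fun z => (D.s1 z.1 = b ∧ D.s2 z.1 = d) ∧ (D.s1 z.2 = a ∧ D.s2 z.2 = D.t z.1)
    with hB
  have memA : ∀ a b d z, z ∈ A a b d ↔
      (D.s1 z.1 = a ∧ D.s2 z.1 = b) ∧ (D.s1 z.2 = D.t z.1 ∧ D.s2 z.2 = d) := by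
    intro a b d z
    rw [hA]
    simp only [Finset.mem_filter, Finset.mem_univ, true_and]
  have memB : ∀ a b d z, z ∈ B a b d ↔
      (D.s1 z.1 = b ∧ D.s2 z.1 = d) ∧ (D.s1 z.2 = a ∧ D.s2 z.2 = D.t z.1) := by
    intro a b d z
    rw [hB]
    simp only [Finset.mem_filter, Finset.mem_univ, true_and]
  -- the kernels
  have hK : ∀ a b d, ∀ w ∈ lists V (2 * m), ∀ w' ∈ lists V (2 * m),
      ∑ j ∈ B a b d, star (D.Rv X c m bp J j.1 j.2 w) * D.Rv X c m bp J j.1 j.2 w' =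
        ∑ i ∈ A a b d, star (Lv m J i.1 i.2 w) * Lv m J i.1 i.2 w' := by
    intro a b d w hw w' hw'
    have h := hC a b d w w' hw hw'
    rw [SU_nest (fun β => D.s1 β = b ∧ D.s2 β = d) (fun β δ => D.s1 δ = a ∧ D.s2 δ = D.t β)
      (fun β δ => star (D.Rv X c m bp J β δ w) * D.Rv X c m bp J β δ w'),
      SU_nest (fun α => D.s1 α = a ∧ D.s2 α = b) (fun α γ => D.s1 γ = D.t α ∧ D.s2 γ = d)
      (fun α γ => star (Lv m J α γ w) * Lv m J α γ w')] at h
    exact h
  have hLo' : ∀ a b d, ∀ i ∈ A a b d, ∀ i' ∈ A a b d,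
      ∑ w ∈ lists V (2 * m), Lv m J i.1 i.2 w * star (Lv m J i'.1 i'.2 w) =
        if i = i' then 1 else 0 := by
    intro a b d i hi i' hi'
    rw [memA] at hi hi'
    rw [hLo i.1 i.2 i'.1 i'.2 (hi.1.1.trans hi'.1.1.symm) (hi.1.2.trans hi'.1.2.symm)
      (hi.2.2.trans hi'.2.2.symm) hi.2.1.symm hi'.2.1.symm]
    by_cases h : i = i'
    · rw [if_pos h, if_pos ⟨congrArg Prod.fst h, congrArg Prod.snd h⟩]
    · rw [if_neg h, if_neg (fun h' => h (Prod.ext h'.1 h'.2))]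
  have hRo' : ∀ a b d, ∀ j ∈ B a b d, ∀ j' ∈ B a b d,
      ∑ w ∈ lists V (2 * m), D.Rv X c m bp J j.1 j.2 w * star (D.Rv X c m bp J j'.1 j'.2 w) =
        if j = j' then 1 else 0 := by
    intro a b d i hi i' hi'
    rw [memB] at hi hi'
    rw [hR i.1 i.2 i'.1 i'.2 (hi.1.1.trans hi'.1.1.symm) (hi.1.2.trans hi'.1.2.symm)
      (hi.2.1.trans hi'.2.1.symm) hi.2.2.symm hi'.2.2.symm]
    by_cases h : i = i'
    · rw [if_pos h, if_pos ⟨congrArg Prod.fst h, congrArg Prod.snd h⟩]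
    · rw [if_neg h, if_neg (fun h' => h (Prod.ext h'.1 h'.2))]
  -- the form on the index sets
  have hGAB : ∀ a b d, ∀ i ∈ A a b d, ∀ j ∈ B a b d, D.form X c m bp J i.1 i.2 j.1 j.2 =
      ∑ w ∈ lists V (2 * m), Lv m J i.1 i.2 w * star (D.Rv X c m bp J j.1 j.2 w) := by
    intro a b d i hi j hj
    rw [memA] at hi
    rw [memB] at hj
    exact hG _ _ _ _ hi.2.1.symm hj.2.2.symm (hi.1.1.trans hj.2.1.symm)
      (hi.1.2.trans hj.1.1.symm) (hi.2.2.trans hj.1.2.symm)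
  refine ⟨?_, ?_, ?_⟩
  · intro l e e' l' h
    refine ⟨?_, Finset.mem_univ _, Finset.mem_univ _⟩
    by_contra h'
    exact h (hG0 _ _ _ _ h')
  · intro l e l₁ e₁ hle _ _
    have hs : ∑ e', ∑ l', D.form X c m bp J l e e' l' * star (D.form X c m bp J l₁ e₁ e' l') =
        ∑ z ∈ B (D.s1 l) (D.s2 l) (D.s2 e),
          D.form X c m bp J l e z.1 z.2 * star (D.form X c m bp J l₁ e₁ z.1 z.2) := by
      rw [← Fintype.sum_prod_type'
        (fun e' l' => D.form X c m bp J l e e' l' * star (D.form X c m bp J l₁ e₁ e' l'))]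
      symm
      refine Finset.sum_subset (Finset.subset_univ _) fun z _ hz => ?_
      rw [hG0 l e z.1 z.2, zero_mul]
      rintro ⟨h1, h2, h3, h4, h5, h6⟩
      exact hz ((memB _ _ _ _).mpr ⟨⟨h4.symm, h5.symm⟩, h3.symm, h2.symm⟩)
    rw [hs]
    have hi : (l, e) ∈ A (D.s1 l) (D.s2 l) (D.s2 e) :=
      (memA _ _ _ _).mpr ⟨⟨rfl, rfl⟩, hle.symm, rfl⟩
    by_cases hi₁ : (l₁, e₁) ∈ A (D.s1 l) (D.s2 l) (D.s2 e)
    · have h := SU_abs (lists V (2 * m)) (A (D.s1 l) (D.s2 l) (D.s2 e))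
        (B (D.s1 l) (D.s2 l) (D.s2 e)) (fun i w => Lv m J i.1 i.2 w)
        (fun j w => D.Rv X c m bp J j.1 j.2 w) (hK _ _ _) (hLo' _ _ _) (l, e) hi (l₁, e₁) hi₁
      have h' : ∑ z ∈ B (D.s1 l) (D.s2 l) (D.s2 e),
          D.form X c m bp J l e z.1 z.2 * star (D.form X c m bp J l₁ e₁ z.1 z.2) =
          if (l, e) = (l₁, e₁) then 1 else 0 := by
        rw [← h]
        refine Finset.sum_congr rfl fun z hz => ?_
        rw [hGAB _ _ _ (l, e) hi z hz, hGAB _ _ _ (l₁, e₁) hi₁ z hz]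
      rw [h']
      by_cases hh : l = l₁ ∧ e = e₁
      · rw [if_pos hh, if_pos (Prod.ext hh.1 hh.2)]
      · rw [if_neg hh, if_neg (fun h'' => hh ⟨congrArg Prod.fst h'', congrArg Prod.snd h''⟩)]
    · rw [if_neg]
      · refine Finset.sum_eq_zero fun z hz => ?_
        rw [memB] at hz
        rw [hG0 l₁ e₁ z.1 z.2, star_zero, mul_zero]
        rintro ⟨h1, h2, h3, h4, h5, h6⟩
        exact hi₁ ((memA _ _ _ _).mpr ⟨⟨h3.trans hz.2.1, h4.trans hz.1.1⟩, h1.symm,
          h5.trans hz.1.2⟩)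
      · rintro ⟨rfl, rfl⟩
        exact hi₁ hi
  · intro e' l' e₁ l₁ hle _ _
    have hs : ∑ l, ∑ e, star (D.form X c m bp J l e e' l') * D.form X c m bp J l e e₁ l₁ =
        ∑ z ∈ A (D.s1 l') (D.s1 e') (D.s2 e'),
          star (D.form X c m bp J z.1 z.2 e' l') * D.form X c m bp J z.1 z.2 e₁ l₁ := by
      rw [← Fintype.sum_prod_type'
        (fun l e => star (D.form X c m bp J l e e' l') * D.form X c m bp J l e e₁ l₁)]
      symm
      refine Finset.sum_subset (Finset.subset_univ _) fun z _ hz => ?_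
      rw [hG0 z.1 z.2 e' l', star_zero, zero_mul]
      rintro ⟨h1, h2, h3, h4, h5, h6⟩
      exact hz ((memA _ _ _ _).mpr ⟨⟨h3, h4⟩, h1.symm, h5⟩)
    rw [hs]
    have hj : (e', l') ∈ B (D.s1 l') (D.s1 e') (D.s2 e') :=
      (memB _ _ _ _).mpr ⟨⟨rfl, rfl⟩, rfl, hle.symm⟩
    by_cases hj₁ : (e₁, l₁) ∈ B (D.s1 l') (D.s1 e') (D.s2 e')
    · have h := SU_abs (lists V (2 * m)) (B (D.s1 l') (D.s1 e') (D.s2 e'))
        (A (D.s1 l') (D.s1 e') (D.s2 e')) (fun j w => D.Rv X c m bp J j.1 j.2 w)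
        (fun i w => Lv m J i.1 i.2 w) (fun w hw w' hw' => (hK _ _ _ w hw w' hw').symm)
        (hRo' _ _ _) (e', l') hj (e₁, l₁) hj₁
      have h' : ∑ z ∈ A (D.s1 l') (D.s1 e') (D.s2 e'),
          star (D.form X c m bp J z.1 z.2 e' l') * D.form X c m bp J z.1 z.2 e₁ l₁ =
          if (e', l') = (e₁, l₁) then 1 else 0 := by
        rw [← h]
        refine Finset.sum_congr rfl fun z hz => ?_
        rw [hGAB _ _ _ z hz (e', l') hj, hGAB _ _ _ z hz (e₁, l₁) hj₁]
        rw [star_sum, star_sum]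
        congr 1
        · refine Finset.sum_congr rfl fun w _ => ?_
          rw [star_mul, star_star]
        · refine Finset.sum_congr rfl fun w _ => ?_
          rw [star_mul, star_star]
      rw [h']
      by_cases hh : e' = e₁ ∧ l' = l₁
      · rw [if_pos hh, if_pos (Prod.ext hh.1 hh.2)]
      · rw [if_neg hh, if_neg (fun h'' => hh ⟨congrArg Prod.fst h'', congrArg Prod.snd h''⟩)]
    · rw [if_neg]
      · refine Finset.sum_eq_zero fun z hz => ?_
        rw [memA] at hz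
        rw [hG0 z.1 z.2 e₁ l₁, mul_zero]
        rintro ⟨h1, h2, h3, h4, h5, h6⟩
        exact hj₁ ((memB _ _ _ _).mpr ⟨⟨h4.symm.trans hz.1.2, h5.symm.trans hz.2.2⟩,
          h3.symm.trans hz.1.1, h2.symm⟩)
      · rintro ⟨rfl, rfl⟩
        exact hj₁ hj

end Pool.Agent.helper93.TV
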